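import Pool.Agent.V1173.RX.Fin

/-!
# Functions differentiable along a compact plane set lie in `R(X)`
-/

set_option autoImplicit false
set_option linter.all false

open Complex Filter Topology Set

namespace Pool.Agent.Results.MP_dbc030_an.DiffInR

/-- Let `X` be a compact plane set and let `f` be complex differentiable along `X` at every point
of `X`. Then `f` is a uniform limit on `X` of rational functions without poles on `X`. -/
theorem result (X : Set ℂ) (hX : IsCompact X) (f : ℂ → ℂ)
    (hf : ∀ a ∈ X, ∃ c : ℂ,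
      Tendsto (fun z : ℂ => (f z - f a) / (z - a)) (𝓝[X \ {a}] a) (𝓝 c))
    (ε : ℝ) (hε : 0 < ε) :
    ∃ p q : Polynomial ℂ, (∀ z ∈ X, q.eval z ≠ 0) ∧
      ∀ z ∈ X, ‖f z - p.eval z / q.eval z‖ < ε := by
  refine Pool.Agent.V1173.RX.rat X hX f (fun a ha => ?_) ε hε
  obtain ⟨c, hc⟩ := hf a ha
  have h1 : HasDerivWithinAt f c X a := by
    rw [hasDerivWithinAt_iff_tendsto_slope]
    refine hc.congr fun z => ?_
    rw [slope_def_field]
  exact h1.differentiableWithinAt

end Pool.Agent.Results.MP_dbc030_an.DiffInR
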